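import Mathlib
import Pool.Agent.Work.MP_2869d0_nt.Final

set_option autoImplicit false

namespace Pool.Agent.Results.MP_2869d0_nt.AperyValuation

open Finset Polynomial Pool.Agent.Work.MP_2869d0_nt

/-- **Q1.** For every prime `p`, every `n ≥ 1` and every `x ∈ ℤ_p`,
`ν_p((1/n) ∑_{k<n} (2k+1)(-1)^k A_k(x)) ≥ min (ν_p(n), ν_p(4x-1))`.
Here `Padic.addValuation : ℚ_p → ℤ ∪ {∞}` is the `p`-adic valuation, with `ν_p(0) = ∞`. -/
theorem result (p : ℕ) [Fact p.Prime] (n : ℕ) (hn : 0 < n) (x : ℤ_[p]) :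
    min (Padic.addValuation (n : ℚ_[p])) (Padic.addValuation (4 * (x : ℚ_[p]) - 1))
      ≤ Padic.addValuation ((1 / (n : ℚ_[p])) *
          ∑ k ∈ range n, (2 * (k : ℚ_[p]) + 1) * (-1) ^ k * aperyPoly k (x : ℚ_[p])) := by
  obtain ⟨F, hF⟩ := exists_apery_quotient n
  have hS : ∀ x : ℤ_[p], ∑ k ∈ range n, (2 * (k : ℤ_[p]) + 1) * (-1) ^ k * aperyPoly k x
      = (n : ℤ_[p]) * Polynomial.aeval x F := by
    intro x
    have h := eval_weighted n (fun k => aperyPoly k (X : ℤ[X])) F hF x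
    rw [← h]
    apply sum_congr rfl
    intro k _
    have := map_aperyPoly (Polynomial.aeval (R := ℤ) x).toRingHom k (X : ℤ[X])
    simp only [AlgHom.toRingHom_eq_coe, RingHom.coe_coe, aeval_X] at this
    rw [this]
  have key := val_main n hn F
    (fun x : ℤ_[p] => ∑ k ∈ range n, (2 * (k : ℤ_[p]) + 1) * (-1) ^ k * aperyPoly k x)
    1 isUnit_one hS (fun y hy => apery_special y (by simpa using hy) n) x
  have hcast : ((∑ k ∈ range n, (2 * (k : ℤ_[p]) + 1) * (-1) ^ k * aperyPoly k x : ℤ_[p]) : ℚ_[p])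
      = ∑ k ∈ range n, (2 * (k : ℚ_[p]) + 1) * (-1) ^ k * aperyPoly k (x : ℚ_[p]) := by
    change PadicInt.Coe.ringHom _ = _
    rw [map_sum]
    apply sum_congr rfl
    intro k _
    rw [map_mul, map_aperyPoly, map_mul, map_add, map_mul, map_pow, map_neg, map_one,
      map_natCast, map_ofNat]
    rfl
  simp only [hcast, Int.cast_one] at key
  exact key

end Pool.Agent.Results.MP_2869d0_nt.AperyValuation
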