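import Mathlib
import Pool.Agent.Work.MP_2869d0_nt.Final

set_option autoImplicit false

namespace Pool.Agent.Results.MP_2869d0_nt.DelannoyValuation

open Finset Polynomial Pool.Agent.Work.MP_2869d0_nt

/-- **Q2.** For every prime `p`, every `n ≥ 1` and every `x ∈ ℤ_p`,
`ν_p((1/n) ∑_{k<n} (2k+1)(-1)^k D_k(x)^3) ≥ min (ν_p(n), ν_p(4x+1))`.
Here `Padic.addValuation : ℚ_p → ℤ ∪ {∞}` is the `p`-adic valuation, with `ν_p(0) = ∞`. -/
theorem result (p : ℕ) [Fact p.Prime] (n : ℕ) (hn : 0 < n) (x : ℤ_[p]) :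
    min (Padic.addValuation (n : ℚ_[p])) (Padic.addValuation (4 * (x : ℚ_[p]) + 1))
      ≤ Padic.addValuation ((1 / (n : ℚ_[p])) *
          ∑ k ∈ range n, (2 * (k : ℚ_[p]) + 1) * (-1) ^ k * delannoyPoly k (x : ℚ_[p]) ^ 3) := by
  obtain ⟨F, hF⟩ := exists_delannoy_quotient n
  have hS : ∀ x : ℤ_[p], ∑ k ∈ range n, (2 * (k : ℤ_[p]) + 1) * (-1) ^ k * delannoyPoly k x ^ 3
      = (n : ℤ_[p]) * Polynomial.aeval x F := by
    intro x
    have h := eval_weighted n (fun k => delannoyPoly k (X : ℤ[X]) ^ 3) F hF x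
    rw [← h]
    apply sum_congr rfl
    intro k _
    have := map_delannoyPoly (Polynomial.aeval (R := ℤ) x).toRingHom k (X : ℤ[X])
    simp only [AlgHom.toRingHom_eq_coe, RingHom.coe_coe, aeval_X] at this
    rw [map_pow, this]
  have hsp : ∀ y : ℤ_[p], 4 * y = ((-1 : ℤ) : ℤ_[p]) → ∃ d,
      ∑ k ∈ range n, (2 * (k : ℤ_[p]) + 1) * (-1) ^ k * delannoyPoly k y ^ 3
        = (n : ℤ_[p]) ^ 2 * d := by
    intro y hy
    obtain ⟨m, rfl⟩ : ∃ m, n = m + 1 := ⟨n - 1, by omega⟩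
    have hy' : 4 * y = -1 := by simpa using hy
    refine ⟨(-1) ^ (m + 1) * 4 * (delannoyPoly m y * delannoyPoly (m + 1) y *
        (delannoyPoly (m + 1) y - delannoyPoly m y)), ?_⟩
    rw [delannoy_closed_form y hy' m]
    push_cast
    ring
  have key := val_main n hn F
    (fun x : ℤ_[p] => ∑ k ∈ range n, (2 * (k : ℤ_[p]) + 1) * (-1) ^ k * delannoyPoly k x ^ 3)
    (-1) isUnit_one.neg hS hsp x
  have hcast : ((∑ k ∈ range n, (2 * (k : ℤ_[p]) + 1) * (-1) ^ k *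
      delannoyPoly k x ^ 3 : ℤ_[p]) : ℚ_[p])
      = ∑ k ∈ range n, (2 * (k : ℚ_[p]) + 1) * (-1) ^ k * delannoyPoly k (x : ℚ_[p]) ^ 3 := by
    change PadicInt.Coe.ringHom _ = _
    rw [map_sum]
    apply sum_congr rfl
    intro k _
    rw [map_mul, map_pow, map_delannoyPoly, map_mul, map_add, map_mul, map_pow, map_neg, map_one,
      map_natCast, map_ofNat]
    rfl
  have h1 : 4 * (x : ℚ_[p]) - ((-1 : ℤ) : ℚ_[p]) = 4 * (x : ℚ_[p]) + 1 := by
    push_cast; ring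
  simp only [hcast, h1] at key
  exact key

end Pool.Agent.Results.MP_2869d0_nt.DelannoyValuation
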